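import Pool.Agent.helper132_hp.T_TOP
import Pool.Agent.helper132_hp.T_DICH
import Pool.Agent.helper132_hp.T_MV
import Pool.Agent.helper132_hp.T_VL
import Pool.Agent.helper132_hp.T_C1b
import Pool.Agent.helper132_hp.T_CNT
import Pool.Agent.helper132_hp.T_BS
import Pool.Agent.helper132_hp.T_FL
import Pool.Agent.helper132_hp.T_C2
import Pool.Agent.helper132_hp.T_NORM
import Pool.Agent.helper132_hp.T_GREEDY
import Pool.Agent.helper132_hp.T_PERT
import Pool.Agent.helper132_hp.T_AS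
import Pool.Agent.helper132_hp.T_PAD
import Pool.Agent.helper132_hp.T_HEN
import Pool.Agent.helper132_hp.T_RL
import Pool.Agent.helper132_hp.T_DEC
import Pool.Agent.helper132_hp.T_INT
import Pool.Agent.helper132_hp.T_REAL
import Pool.Agent.helper132_hp.T_DENS
import Pool.Agent.helper132_hp.T_ACM
import Pool.Agent.helper132_hp.T_ODD
import Pool.Agent.helper132_hp.T_EVEN

/-! MP_c0a553_nt: the Hasse principle for quadratic forms in `k`-th powers. -/

namespace Pool.Agent.Results.MP_c0a553_nt.HassePolynomialThreshold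

open Pool.Agent.helper132_hp Filter Topology

theorem result : ∃ C : ℕ,
    (∀ k, Odd k → Threshold k (C * k ^ 65)) ∧
    (∀ k, Even k → 2 ≤ k → ∀ s0, ¬ Threshold k s0) ∧
    (∀ k ≥ 1, ∀ s ≥ C * k ^ 65, ∀ A : Matrix (Fin s) (Fin s) ℚ, A.IsSymm → A.det ≠ 0 →
      SmoothReal A k → HasZero ℚ A k) ∧
    Tendsto (fun m : ℕ => Real.log (hh (2 * m + 1)) / ((2 * m + 1 : ℕ) : ℝ)) atTop (𝓝 0) := by
  have hPAD : S_PAD := t_PAD (t_AS t_NORM t_GREEDY t_CNT t_PERT)
  have hACM : S_ACM := t_ACM (t_DEC t_RL t_SC) t_INT t_REAL t_DENS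
  have hC2 : S_C2 := t_C2 (t_BS t_MV t_VL) t_FL
  have hFIN : TOPx.S_FIN := fun k hk s hs1 hs2 A hA hd hy =>
    t_FIN t_DICH (t_C1 t_MV t_VL) hC2 hPAD t_HEN hACM k hk s hs1 hs2 A hA hd hy
  exact t_TOP hFIN t_ODD t_EVEN

end Pool.Agent.Results.MP_c0a553_nt.HassePolynomialThreshold
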